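import Pool.Agent.W941.MG.Stm

/-!
# MG-BIG: large diagonal sets of ordered partitions
-/

set_option autoImplicit false

namespace Pool.Agent.W18.MG

open Pool.Agent.W941.MG

lemma powS (K : ℕ) (hK : 2 ≤ K) : K ^ (K * K) ≤ (K + 1) ^ ((K + 1) * (K - 1)) := by
  obtain ⟨k, rfl⟩ : ∃ k, K = k + 1 := ⟨K - 1, by omega⟩
  have hk : (0 : ℝ) < (k + 1 : ℕ) := by positivity
  have h1 := one_add_mul_le_pow (a := (1 / ((k + 1 : ℕ) : ℝ))) (by
    have : (0 : ℝ) ≤ 1 / ((k + 1 : ℕ) : ℝ) := by positivity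
    linarith) ((k + 1 + 1) * (k + 1 - 1))
  have h2 : ((k + 1 : ℕ) : ℝ) ≤
      1 + (((k + 1 + 1) * (k + 1 - 1) : ℕ) : ℝ) * (1 / ((k + 1 : ℕ) : ℝ)) := by
    rw [mul_one_div, ← sub_le_iff_le_add', le_div_iff₀ hk]
    push_cast [Nat.add_sub_cancel]
    have : (0 : ℝ) ≤ k := Nat.cast_nonneg _
    nlinarith
  have h3 : (k + 1) * (k + 1) = (k + 1 + 1) * (k + 1 - 1) + 1 := by
    rw [Nat.add_sub_cancel]; ring
  have h4 : ((k + 1 : ℕ) : ℝ) ^ ((k + 1) * (k + 1)) ≤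
      ((k + 1 + 1 : ℕ) : ℝ) ^ ((k + 1 + 1) * (k + 1 - 1)) := by
    rw [h3, pow_succ]
    have h5 : ((k + 1 + 1 : ℕ) : ℝ) = ((k + 1 : ℕ) : ℝ) * (1 + 1 / ((k + 1 : ℕ) : ℝ)) := by
      field_simp
      push_cast
      ring
    rw [h5, mul_pow]
    exact mul_le_mul_of_nonneg_left (h2.trans h1) (by positivity)
  exact_mod_cast h4

lemma powR (r K : ℕ) (hr : 2 ≤ r) (hrK : r ≤ K) : r ^ (r * (K - 1)) ≤ K ^ (K * (r - 1)) := by
  induction K, hrK using Nat.le_induction with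
  | base => exact le_rfl
  | succ K hK ih =>
    have hK1 : K - 1 ≠ 0 := by omega
    rw [← Nat.pow_le_pow_iff_left hK1]
    calc (r ^ (r * (K + 1 - 1))) ^ (K - 1) = (r ^ (r * (K - 1))) ^ K := by
          rw [← pow_mul, ← pow_mul, Nat.add_sub_cancel]; ring_nf
      _ ≤ (K ^ (K * (r - 1))) ^ K := Nat.pow_le_pow_left ih _
      _ = (K ^ (K * K)) ^ (r - 1) := by rw [← pow_mul, ← pow_mul]; ring_nf
      _ ≤ ((K + 1) ^ ((K + 1) * (K - 1))) ^ (r - 1) :=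
          Nat.pow_le_pow_left (powS K (by omega)) _
      _ = _ := by rw [← pow_mul, ← pow_mul]; ring_nf

open Classical in
/-- The selection statement with the extra hypothesis `1 ≤ K`. -/
def SelStmt' : Prop := ∀ (K m : ℕ) (V : Type) [AddCommGroup V] [Fintype V] (B : Finset V),
    1 ≤ K → AvgFree K B →
    (∀ f : Fin ((K + 1) * m) → Fin (K + 1), Bal (K + 1) m f →
      4 * ∑ g ∈ Finset.univ.filter (fun g : Fin ((K + 1) * m) → Fin (K + 1) => Bal (K + 1) m g ∧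
          g ≠ f ∧ ∃ j, ∀ c, g c = j ↔ f c = j),
        (Finset.univ.filter fun w : Fin ((K + 1) * m) → V => ∀ j,
          ∑ c ∈ Finset.univ.filter (fun c => f c = j), w c =
          ∑ c ∈ Finset.univ.filter (fun c => g c = j), w c).card ≤
      Fintype.card V ^ ((K + 1) * m)) →
    ∃ I : Finset (Fin ((K + 1) * m) → Fin (K + 1)), Diag (K + 1) m I ∧
      B.card * (Finset.univ.filter fun f : Fin ((K + 1) * m) → Fin (K + 1) => Bal (K + 1) m f).card ≤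
        2 * Fintype.card V ^ K * I.card

theorem sel_of (h : SelStmt) : SelStmt' := fun K m V _ _ B _ hB hf => h K m V B hB hf

/-- The choice of `D`. -/
lemma exD (K m d : ℕ) (hK : 2 ≤ K) (hd : 1 ≤ d) : ∃ D : ℕ, 1 ≤ D ∧
    (4 * (K + 1) ^ (K + 1)) ^ (K - 1) * K ^ (K * m) ≤ ((K * D + 1) ^ d) ^ (K - 1) ∧
    ((K * D + 1) ^ d) ^ (K - 1) ≤
      (K + 1) ^ (d * (K - 1)) * ((4 * (K + 1) ^ (K + 1)) ^ (K - 1) * K ^ (K * m)) := by
  classical
  set T := (4 * (K + 1) ^ (K + 1)) ^ (K - 1) * K ^ (K * m) with hT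
  have hT1 : 1 ≤ T := Nat.one_le_iff_ne_zero.2 (by positivity)
  have hex : ∃ D : ℕ, 1 ≤ D ∧ T ≤ ((K * D + 1) ^ d) ^ (K - 1) := by
    refine ⟨T, hT1, ?_⟩
    have h1 : T ≤ K * T + 1 := by nlinarith
    have h2 : K * T + 1 ≤ (K * T + 1) ^ d := Nat.le_self_pow (by omega) _
    have h3 : (K * T + 1) ^ d ≤ ((K * T + 1) ^ d) ^ (K - 1) := Nat.le_self_pow (by omega) _
    omega
  refine ⟨Nat.find hex, (Nat.find_spec hex).1, (Nat.find_spec hex).2, ?_⟩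
  set D := Nat.find hex with hD
  have hD1 : 1 ≤ D := (Nat.find_spec hex).1
  rcases Nat.lt_or_ge 1 D with h | h
  · have hmin := Nat.find_min hex (m := D - 1) (by omega)
    rw [not_and, not_le] at hmin
    have h1 := hmin (by omega)
    obtain ⟨E, hE⟩ : ∃ E, D = E + 1 := ⟨D - 1, by omega⟩
    rw [hE, Nat.add_sub_cancel] at h1
    rw [hE]
    calc ((K * (E + 1) + 1) ^ d) ^ (K - 1) ≤ (((K + 1) * (K * E + 1)) ^ d) ^ (K - 1) := by
          apply Nat.pow_le_pow_left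
          apply Nat.pow_le_pow_left
          nlinarith [Nat.zero_le (K * (K * E))]
      _ = (K + 1) ^ (d * (K - 1)) * ((K * E + 1) ^ d) ^ (K - 1) := by
          rw [mul_pow, mul_pow, ← pow_mul]
      _ ≤ _ := Nat.mul_le_mul_left _ h1.le
  · have h2 : D = 1 := by omega
    rw [h2, mul_one, ← pow_mul]
    exact Nat.le_mul_of_pos_right _ hT1

/-- The condition on the pairs. -/
lemma cond (K m Q : ℕ) (hK : 2 ≤ K)
    (hQ : (4 * (K + 1) ^ (K + 1)) ^ (K - 1) * K ^ (K * m) ≤ Q ^ (K - 1)) (r : ℕ) (hr : 2 ≤ r)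
    (hrK : r ≤ K) : 4 * (K + 1) ^ (K + 1) * r ^ (r * m) ≤ Q ^ (r - 1) := by
  have hK1 : K - 1 ≠ 0 := by omega
  rw [← Nat.pow_le_pow_iff_left hK1]
  calc (4 * (K + 1) ^ (K + 1) * r ^ (r * m)) ^ (K - 1)
      = (4 * (K + 1) ^ (K + 1)) ^ (K - 1) * (r ^ (r * (K - 1))) ^ m := by
        rw [mul_pow, ← pow_mul, ← pow_mul]; ring_nf
    _ ≤ ((4 * (K + 1) ^ (K + 1)) ^ (K - 1)) ^ (r - 1) * (K ^ (K * (r - 1))) ^ m := by
        apply Nat.mul_le_mul
        · exact Nat.le_self_pow (by omega) _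
        · exact Nat.pow_le_pow_left (powR r K hr hrK) _
    _ = ((4 * (K + 1) ^ (K + 1)) ^ (K - 1) * K ^ (K * m)) ^ (r - 1) := by
        generalize (4 * (K + 1) ^ (K + 1)) ^ (K - 1) = A
        rw [mul_pow A, ← pow_mul, ← pow_mul]
        congr 2
        ring
    _ ≤ (Q ^ (K - 1)) ^ (r - 1) := Nat.pow_le_pow_left hQ _
    _ = _ := by rw [← pow_mul, ← pow_mul]; ring_nf

/-- The constants. -/
def c1 (K : ℕ) : ℕ := (K + 1) ^ (K - 1) * (4 * (K + 1) ^ (K + 1)) ^ (K - 1) * K ^ K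

def c2 (K : ℕ) : ℕ := 2 * ((K + 1) * 4) ^ K * (4 * c1 K ^ 2) * (2 * K) * (K + 1) ^ (K - 1) *
  (4 * (K + 1) ^ (K + 1)) ^ (K - 1)

lemma D_le (K m d D : ℕ) (hK : 2 ≤ K) (hd : 1 ≤ d) (hmd : m ≤ d * d) (hD : 1 ≤ D)
    (h : ((K * D + 1) ^ d) ^ (K - 1) ≤
      (K + 1) ^ (d * (K - 1)) * ((4 * (K + 1) ^ (K + 1)) ^ (K - 1) * K ^ (K * m))) :
    D ≤ c1 K ^ d := by
  have hKp : 0 < K := by omega
  have h1 : (D ^ (K - 1)) ^ d ≤ (c1 K ^ d) ^ d := by
    calc (D ^ (K - 1)) ^ d = (D ^ d) ^ (K - 1) := by rw [← pow_mul, ← pow_mul]; ring_nf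
      _ ≤ ((K * D + 1) ^ d) ^ (K - 1) := by
          apply Nat.pow_le_pow_left
          apply Nat.pow_le_pow_left
          nlinarith
      _ ≤ _ := h
      _ ≤ ((K + 1) ^ (K - 1)) ^ (d * d) * (((4 * (K + 1) ^ (K + 1)) ^ (K - 1)) ^ (d * d) *
          (K ^ K) ^ (d * d)) := by
          apply Nat.mul_le_mul
          · rw [← pow_mul]
            apply Nat.pow_le_pow_right (by omega)
            rw [mul_comm d]
            exact Nat.mul_le_mul_left _ (Nat.le_mul_of_pos_left _ hd)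
          apply Nat.mul_le_mul
          · exact Nat.le_self_pow (by positivity) _
          · rw [← pow_mul]
            exact Nat.pow_le_pow_right hKp (Nat.mul_le_mul_left _ hmd)
      _ = (c1 K ^ d) ^ d := by
          rw [c1, ← pow_mul, mul_pow, mul_pow]; ring
  have h2 : D ^ (K - 1) ≤ c1 K ^ d := (Nat.pow_le_pow_iff_left (by omega)).1 h1
  exact (Nat.le_self_pow (by omega) _).trans h2

lemma den_le (K m d D : ℕ) (hK : 2 ≤ K) (hd : 1 ≤ d) (hmd : m ≤ d * d) (hD : D ≤ c1 K ^ d) :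
    2 * (K * m + 1) ^ K * (d * D ^ 2 + 1) * (2 * K) ^ d * (K + 1) ^ (d * (K - 1)) *
      (4 * (K + 1) ^ (K + 1)) ^ (K - 1) ≤ c2 K ^ d := by
  have hd2 : d ≤ 2 ^ d := Nat.lt_two_pow_self.le
  have hc1 : 1 ≤ c1 K := Nat.one_le_iff_ne_zero.2 (by unfold c1; positivity)
  have hdd : d * d ≤ 4 ^ d := by
    calc d * d ≤ 2 ^ d * 2 ^ d := Nat.mul_le_mul hd2 hd2
      _ = 4 ^ d := by rw [← mul_pow]; norm_num
  have e1 : 2 ≤ 2 ^ d := Nat.le_self_pow (by omega) _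
  have e2 : K * m + 1 ≤ ((K + 1) * 4) ^ d := by
    calc K * m + 1 ≤ K * (d * d) + d * d := by nlinarith
      _ = (K + 1) * (d * d) := by ring
      _ ≤ (K + 1) ^ d * 4 ^ d := Nat.mul_le_mul (Nat.le_self_pow (by omega) _) hdd
      _ = _ := by rw [mul_pow]
  have e3 : d * D ^ 2 + 1 ≤ (4 * c1 K ^ 2) ^ d := by
    have h1 : D ^ 2 ≤ (c1 K ^ 2) ^ d := by
      calc D ^ 2 ≤ (c1 K ^ d) ^ 2 := Nat.pow_le_pow_left hD _
        _ = _ := by rw [← pow_mul, ← pow_mul]; ring_nf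
    have h2 : 1 ≤ (c1 K ^ 2) ^ d := Nat.one_le_iff_ne_zero.2 (by positivity)
    calc d * D ^ 2 + 1 ≤ 2 ^ d * (c1 K ^ 2) ^ d + 2 ^ d * (c1 K ^ 2) ^ d := by
          apply Nat.add_le_add
          · exact Nat.mul_le_mul hd2 h1
          · exact Nat.one_le_iff_ne_zero.2 (by positivity)
      _ = 2 * (2 ^ d * (c1 K ^ 2) ^ d) := by ring
      _ ≤ 2 ^ d * (2 ^ d * (c1 K ^ 2) ^ d) := Nat.mul_le_mul_right _ e1
      _ = _ := by rw [mul_pow 4, ← mul_assoc, ← mul_pow]; norm_num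
  have e4 : (4 * (K + 1) ^ (K + 1)) ^ (K - 1) ≤ ((4 * (K + 1) ^ (K + 1)) ^ (K - 1)) ^ d :=
    Nat.le_self_pow (by omega) _
  have e5 : (K + 1) ^ (d * (K - 1)) = ((K + 1) ^ (K - 1)) ^ d := by
    rw [← pow_mul, mul_comm]
  have e6 : (K * m + 1) ^ K ≤ (((K + 1) * 4) ^ K) ^ d := by
    calc (K * m + 1) ^ K ≤ (((K + 1) * 4) ^ d) ^ K := Nat.pow_le_pow_left e2 _
      _ = _ := by rw [← pow_mul, ← pow_mul, mul_comm d K]
  rw [c2, mul_pow (2 * ((K + 1) * 4) ^ K * (4 * c1 K ^ 2) * (2 * K) * (K + 1) ^ (K - 1)),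
    mul_pow (2 * ((K + 1) * 4) ^ K * (4 * c1 K ^ 2) * (2 * K)),
    mul_pow (2 * ((K + 1) * 4) ^ K * (4 * c1 K ^ 2)), mul_pow (2 * ((K + 1) * 4) ^ K),
    mul_pow 2 (((K + 1) * 4) ^ K), e5]
  exact Nat.mul_le_mul (Nat.mul_le_mul (Nat.mul_le_mul (Nat.mul_le_mul (Nat.mul_le_mul e1 e6) e3)
    le_rfl) le_rfl) e4

/-- The estimate without real numbers. -/
lemma core (hA : AvgStmt) (hP : PairsStmt) (hS : SelStmt') (hM : MultStmt) (K m d : ℕ)
    (hK : 2 ≤ K) (hm : 1 ≤ m) (hd : 1 ≤ d) (hmd : m ≤ d * d) :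
    ∃ I : Finset (Fin ((K + 1) * m) → Fin (K + 1)), Diag (K + 1) m I ∧
      Nat.choose ((K + 1) * m) m ≤ c2 K ^ d * I.card := by
  classical
  obtain ⟨D, hD1, hDT, hDU⟩ := exD K m d hK hd
  obtain ⟨B, hBf, hBc⟩ := hA K d D (by omega) hd hD1
  have hne : NeZero (K * D + 1) := ⟨by omega⟩
  have hcard : Fintype.card (Fin d → ZMod (K * D + 1)) = (K * D + 1) ^ d := by
    rw [Fintype.card_fun, ZMod.card, Fintype.card_fin]
  set Q := (K * D + 1) ^ d with hQ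
  have hpairs := hP (K + 1) m (Fin d → ZMod (K * D + 1)) hm (by
    intro r hr hrK
    rw [hcard]
    rw [Nat.add_sub_cancel] at hrK
    exact cond K m Q hK hDT r hr hrK)
  obtain ⟨I, hI, hIc⟩ := hS K m (Fin d → ZMod (K * D + 1)) B (by omega) hBf (by
    intro f hf
    convert hpairs f hf using 4)
  refine ⟨I, hI, ?_⟩
  have hm' := hM K m (by omega) hm
  rw [hcard] at hIc
  set nB := (Finset.univ.filter fun f : Fin ((K + 1) * m) → Fin (K + 1) =>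
    Bal (K + 1) m f).card with hnB
  have hQp : 0 < Q := by positivity
  have hKp : 0 < K := by omega
  have hQD : Q ≤ D ^ d * (2 * K) ^ d := by
    rw [hQ, ← mul_pow]
    apply Nat.pow_le_pow_left
    nlinarith
  have hQK : Q ^ K = Q * Q ^ (K - 1) := by
    conv_lhs => rw [show K = (K - 1) + 1 by omega, pow_succ, mul_comm]
  set C := Nat.choose ((K + 1) * m) m with hC
  set T := (4 * (K + 1) ^ (K + 1)) ^ (K - 1) with hT
  have hfin : (Q * K ^ (K * m)) * C ≤ (Q * K ^ (K * m)) * (c2 K ^ d * I.card) := by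
    calc (Q * K ^ (K * m)) * C = (C * K ^ (K * m)) * Q := by ring
      _ ≤ (C * K ^ (K * m)) * (D ^ d * (2 * K) ^ d) := Nat.mul_le_mul_left _ hQD
      _ ≤ (C * K ^ (K * m)) * ((B.card * (d * D ^ 2 + 1)) * (2 * K) ^ d) :=
          Nat.mul_le_mul_left _ (Nat.mul_le_mul_right _ hBc)
      _ ≤ ((K * m + 1) ^ K * nB) * ((B.card * (d * D ^ 2 + 1)) * (2 * K) ^ d) :=
          Nat.mul_le_mul_right _ hm'
      _ = (K * m + 1) ^ K * ((d * D ^ 2 + 1) * (2 * K) ^ d) * (B.card * nB) := by ring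
      _ ≤ (K * m + 1) ^ K * ((d * D ^ 2 + 1) * (2 * K) ^ d) * (2 * Q ^ K * I.card) :=
          Nat.mul_le_mul_left _ hIc
      _ = (2 * (K * m + 1) ^ K * (d * D ^ 2 + 1) * (2 * K) ^ d * Q * I.card) * Q ^ (K - 1) := by
          rw [hQK]; ring
      _ ≤ (2 * (K * m + 1) ^ K * (d * D ^ 2 + 1) * (2 * K) ^ d * Q * I.card) *
          ((K + 1) ^ (d * (K - 1)) * (T * K ^ (K * m))) := Nat.mul_le_mul_left _ hDU
      _ = (Q * K ^ (K * m)) * ((2 * (K * m + 1) ^ K * (d * D ^ 2 + 1) * (2 * K) ^ d *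
          (K + 1) ^ (d * (K - 1)) * T) * I.card) := by ring
      _ ≤ _ := Nat.mul_le_mul_left _ (Nat.mul_le_mul_right _
          (den_le K m d D hK hd hmd (D_le K m d D hK hd hmd hD1 hDU)))
  exact Nat.le_of_mul_le_mul_left hfin (by positivity)

theorem big (hA : AvgStmt) (hP : PairsStmt) (hS : SelStmt') (hM : MultStmt) : BigDiagStmt := by
  intro K hK δ hδ
  have hc2 : (1 : ℝ) ≤ (c2 K : ℝ) := by
    have : 1 ≤ c2 K := Nat.one_le_iff_ne_zero.2 (by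
      have : 0 < K := by omega
      unfold c2 c1
      positivity)
    exact_mod_cast this
  have hL : 0 ≤ Real.log (c2 K) := Real.log_nonneg hc2
  have hl2 : 0 < Real.log 2 := Real.log_pos (by norm_num)
  set R : ℝ := 2 * Real.log (c2 K) / (δ * Real.log 2) with hR
  refine ⟨max 1 (⌈R ^ 2⌉₊), fun m hm => ?_⟩
  have hm1 : 1 ≤ m := le_trans (le_max_left _ _) hm
  have hm2 : R ^ 2 ≤ m := by
    have h1 : ⌈R ^ 2⌉₊ ≤ m := le_trans (le_max_right _ _) hm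
    exact (Nat.le_ceil _).trans (by exact_mod_cast h1)
  have hmd : m ≤ (Nat.sqrt m + 1) * (Nat.sqrt m + 1) := (Nat.lt_succ_sqrt m).le
  obtain ⟨I, hI, hIc⟩ := core hA hP hS hM K m (Nat.sqrt m + 1) hK hm1 (by omega) hmd
  refine ⟨I, hI, ?_⟩
  have hsq : ((Nat.sqrt m : ℕ) : ℝ) ≤ Real.sqrt m := Real.nat_sqrt_le_real_sqrt
  have hs1 : (1 : ℝ) ≤ Real.sqrt m := by
    rw [Real.one_le_sqrt]
    exact_mod_cast hm1
  have hRs : R ≤ Real.sqrt m := by
    apply Real.le_sqrt_of_sq_le hm2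
  have hss : Real.sqrt m * Real.sqrt m = m := Real.mul_self_sqrt (Nat.cast_nonneg _)
  have hlog : ((Nat.sqrt m + 1 : ℕ) : ℝ) * Real.log (c2 K) ≤ δ * m * Real.log 2 := by
    have h1 : ((Nat.sqrt m + 1 : ℕ) : ℝ) ≤ 2 * Real.sqrt m := by
      push_cast
      linarith
    have h2 : 2 * Real.log (c2 K) ≤ Real.sqrt m * (δ * Real.log 2) := by
      rw [hR, div_le_iff₀ (by positivity)] at hRs
      exact hRs
    calc ((Nat.sqrt m + 1 : ℕ) : ℝ) * Real.log (c2 K) ≤ 2 * Real.sqrt m * Real.log (c2 K) :=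
          mul_le_mul_of_nonneg_right h1 hL
      _ = Real.sqrt m * (2 * Real.log (c2 K)) := by ring
      _ ≤ Real.sqrt m * (Real.sqrt m * (δ * Real.log 2)) :=
          mul_le_mul_of_nonneg_left h2 (Real.sqrt_nonneg _)
      _ = δ * m * Real.log 2 := by rw [← mul_assoc, hss]; ring
  have hpow : ((c2 K : ℝ)) ^ (Nat.sqrt m + 1) ≤ (2 : ℝ) ^ (δ * m) := by
    have h0 : (0 : ℝ) < (c2 K : ℝ) := by linarith
    rw [← Real.rpow_natCast, Real.rpow_def_of_pos h0, Real.rpow_def_of_pos (by norm_num : (0 : ℝ) < 2)]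
    apply Real.exp_le_exp.2
    linarith
  have hIc' : (Nat.choose ((K + 1) * m) m : ℝ) ≤ (c2 K : ℝ) ^ (Nat.sqrt m + 1) * I.card := by
    exact_mod_cast hIc
  have hpos : (0 : ℝ) < (2 : ℝ) ^ (δ * m) := Real.rpow_pos_of_pos (by norm_num) _
  have hneg : (2 : ℝ) ^ (-δ * m) = ((2 : ℝ) ^ (δ * m))⁻¹ := by
    rw [← Real.rpow_neg (by norm_num)]
    congr 1
    ring
  rw [hneg, inv_mul_le_iff₀ hpos]
  exact hIc'.trans (mul_le_mul_of_nonneg_right hpow (Nat.cast_nonneg _))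

end Pool.Agent.W18.MG
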